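import Pool.Agent.H60.FG.Rows

set_option autoImplicit false

open scoped ENNReal NNReal
open scoped Classical

namespace Pool.Agent.H93.FG

open Pool.Agent.H14.NS Pool.Agent.H60.FG

/-- the elements of the kernel which vanish near the identity -/
noncomputable def W {ι : Type} {m : ℕ} (b : Fin m → FreeGroup ι →₀ ℂ) (M : ℕ) :
    Submodule ℂ (H (FreeGroup ι) ι) :=
  LinearMap.ker (Op b).toLinearMap ⊓
    ⨅ q : {q : ι × FreeGroup ι // q ∈ Bm M},
      LinearMap.ker (lp.evalCLM ℂ (fun _ : ι × FreeGroup ι => ℂ) (p := 2) q.1).toLinearMap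

theorem mem_W {ι : Type} {m : ℕ} (b : Fin m → FreeGroup ι →₀ ℂ) (M : ℕ)
    (d : H (FreeGroup ι) ι) : d ∈ W b M ↔ Op b d = 0 ∧ ∀ q ∈ Bm M, d q = 0 := by
  unfold W
  rw [Submodule.mem_inf, Submodule.mem_iInf]
  constructor
  · rintro ⟨h1, h2⟩
    exact ⟨h1, fun q hq => h2 ⟨q, hq⟩⟩
  · rintro ⟨h1, h2⟩
    exact ⟨h1, fun q => h2 q.1 q.2⟩

theorem closed_W {ι : Type} {m : ℕ} (b : Fin m → FreeGroup ι →₀ ℂ) (M : ℕ) :
    IsClosed (W b M : Set (H (FreeGroup ι) ι)) := by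
  unfold W
  rw [Submodule.coe_inf, Submodule.coe_iInf]
  refine IsClosed.inter ?_ (isClosed_iInter fun q => ?_)
  · exact isClosed_singleton.preimage (Op b).continuous
  · exact isClosed_singleton.preimage
      (lp.evalCLM ℂ (fun _ : ι × FreeGroup ι => ℂ) (p := 2) q.1).continuous

theorem pf_MIN : T_MIN := by
  intro ι _ m b M hm
  obtain ⟨v, hv, hOv⟩ := ker_ne b hm
  -- translate
  obtain ⟨q, hq⟩ : ∃ q : ι × FreeGroup ι, v q ≠ 0 := by
    by_contra hcon
    push Not at hcon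
    exact hv (lp.ext (funext hcon))
  obtain ⟨k, g⟩ := q
  obtain ⟨u, hu⟩ : ∃ u : H (FreeGroup ι) ι, u = lam g⁻¹ v := ⟨_, rfl⟩
  have hOu : Op b u = 0 := by
    rw [hu, Op_equi, hOv, map_zero]
  have hu1 : u (k, 1) ≠ 0 := by
    rw [hu, lam_apply, inv_inv, mul_one]
    exact hq
  -- projection
  have hW : IsClosed (W b M : Set (H (FreeGroup ι) ι)) := closed_W b M
  have : CompleteSpace (W b M) := hW.completeSpace_coe
  obtain ⟨w, hw, hort⟩ : ∃ w ∈ W b M, ∀ d ∈ W b M, inner ℂ (u - w) d = 0 := by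
    refine ⟨(W b M).starProjection u, Submodule.starProjection_apply_mem _ _, fun d hd => ?_⟩
    exact (Submodule.mem_orthogonal' _ _).1 (Submodule.sub_starProjection_mem_orthogonal u) d hd
  have hw' := (mem_W b M w).1 hw
  refine ⟨u - w, ?_, ⟨k, ?_⟩, fun d h1 h2 => hort d ((mem_W b M d).2 ⟨h1, h2⟩)⟩
  · rw [map_sub, hOu, hw'.1, sub_zero]
  · rw [lp.coeFn_sub, Pi.sub_apply, hw'.2 (k, 1) (by
      show FreeGroup.norm (1 : FreeGroup ι) ≤ M
      rw [FreeGroup.norm_one]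
      exact Nat.zero_le _), sub_zero]
    exact hu1

end Pool.Agent.H93.FG
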